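import Mathlib
import Pool.Agent.W360.MQ.Stm

/-! DISC: approximation by pieces -/

set_option autoImplicit false
set_option maxHeartbeats 4000000

namespace Pool.Agent.W407.MQ.Disc

open Pool.Agent.W360.MQ Set

/-- the function in the variables `s = x + y`, `v = x - y` -/
def ff (α β : ℝ → ℝ) (s v : ℝ) : ℝ := α s + β s * s * v

lemma slope {α β : ℝ → ℝ} (hRC : RC α β) (τ a b c : ℝ) (ha : |τ| ≤ a) (hab : a < b) (hbc : b < c) :
    (ff α β b τ - ff α β a τ) * (c - b) ≤ (ff α β c τ - ff α β b τ) * (b - a) := by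
  have h := (hRC τ).slope_mono_adjacent (mem_univ a) (mem_univ c) hab hbc
  have e : ∀ t, |τ| ≤ t → α (max |t| |τ|) + β (max |t| |τ|) * (t * τ) = ff α β t τ := by
    intro t ht
    have h1 : |t| = t := abs_of_nonneg ((abs_nonneg τ).trans ht)
    rw [h1, max_eq_left ht, ff]
    ring
  rw [e a ha, e b (ha.trans hab.le), e c (ha.trans (hab.trans hbc).le)] at h
  rwa [div_le_div_iff₀ (sub_pos.2 hab) (sub_pos.2 hbc)] at h

lemma slope0 {α β : ℝ → ℝ} (hRC : RC α β) (τ b c : ℝ) (hb : |τ| = b) (hb0 : 0 < b) (hbc : b < c) :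
    (ff α β b τ - α b) * (c - b) ≤ (ff α β c τ - ff α β b τ) * b := by
  have h := (hRC τ).slope_mono_adjacent (mem_univ 0) (mem_univ c) hb0 hbc
  have e : ∀ t, |τ| ≤ t → α (max |t| |τ|) + β (max |t| |τ|) * (t * τ) = ff α β t τ := by
    intro t ht
    have h1 : |t| = t := abs_of_nonneg ((abs_nonneg τ).trans ht)
    rw [h1, max_eq_left ht, ff]
    ring
  have e0 : α (max |(0 : ℝ)| |τ|) + β (max |(0 : ℝ)| |τ|) * (0 * τ) = α b := by
    rw [abs_zero, max_eq_right (abs_nonneg τ), hb]
    ring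
  rw [e0, e b hb.le, e c (hb.le.trans hbc.le), sub_zero] at h
  rwa [div_le_div_iff₀ hb0 (sub_pos.2 hbc)] at h

lemma interp (δ ρ0 : ℝ) (hδ : 0 < δ) (a σ : ℕ → ℝ) (hσ : ∀ i, a (i + 1) = a i + σ i * δ)
    (s : ℝ) (n j : ℕ) (hj : j ≤ n) (h1 : ρ0 + j * δ ≤ s) (h2 : s ≤ ρ0 + (j + 1) * δ) :
    a 0 + σ 0 * (s - ρ0) +
      ∑ i ∈ Finset.range n, (σ (i + 1) - σ i) * max (s - (ρ0 + (i + 1) * δ)) 0 =
      a j + σ j * (s - (ρ0 + j * δ)) := by
  have hsum : ∑ i ∈ Finset.range n, (σ (i + 1) - σ i) * max (s - (ρ0 + (i + 1) * δ)) 0 =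
      ∑ i ∈ Finset.range j, (σ (i + 1) - σ i) * (s - (ρ0 + (i + 1) * δ)) := by
    obtain ⟨d, rfl⟩ := Nat.exists_eq_add_of_le hj
    rw [Finset.sum_range_add]
    have z : ∑ x ∈ Finset.range d, (σ (j + x + 1) - σ (j + x)) *
        max (s - (ρ0 + (((j + x : ℕ) : ℝ) + 1) * δ)) 0 = 0 := by
      refine Finset.sum_eq_zero fun x _ => ?_
      rw [max_eq_right, mul_zero]
      have : (0 : ℝ) ≤ (x : ℝ) * δ := by positivity
      push_cast
      nlinarith
    rw [z, add_zero]
    refine Finset.sum_congr rfl fun i hi => ?_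
    rw [max_eq_left]
    have hi' : ((i : ℝ) + 1) ≤ j := by exact_mod_cast Finset.mem_range.1 hi
    nlinarith
  rw [hsum]
  clear hsum hj h1 h2
  induction j with
  | zero => simp
  | succ j ih =>
    rw [Finset.sum_range_succ, ← add_assoc, ih, hσ j]
    push_cast
    ring

lemma exj (δ ρ0 s : ℝ) (n : ℕ) (h1 : ρ0 ≤ s) (h2 : s ≤ ρ0 + (n + 1) * δ) :
    ∃ j ≤ n, ρ0 + j * δ ≤ s ∧ s ≤ ρ0 + (j + 1) * δ := by
  induction n with
  | zero => exact ⟨0, le_rfl, by simpa using h1, by simpa using h2⟩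
  | succ n ih =>
    rcases le_total s (ρ0 + (n + 1) * δ) with h | h
    · obtain ⟨j, hj, h3, h4⟩ := ih h
      exact ⟨j, hj.trans (Nat.le_succ n), h3, h4⟩
    · refine ⟨n + 1, le_rfl, ?_, ?_⟩
      · push_cast; exact h
      · exact h2

/-- uniform continuity and boundedness -/
lemma unif {α β : ℝ → ℝ} (hc : Continuous (wf α β)) (R : ℝ) :
    (∀ e : ℝ, 0 < e → ∃ η : ℝ, 0 < η ∧ ∀ s v s' v' : ℝ, |v| ≤ s → s ≤ R → |v'| ≤ s' → s' ≤ R →
      |s - s'| ≤ η → |v - v'| ≤ η → |ff α β s v - ff α β s' v'| ≤ e) ∧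
    ∃ B : ℝ, 0 ≤ B ∧ ∀ s v : ℝ, |v| ≤ s → s ≤ R → |ff α β s v| ≤ B := by
  set F : ℝ × ℝ → ℝ := fun p => wf α β ((((p.1 + p.2) / 2 : ℝ) : ℂ), (((p.1 - p.2) / 2 : ℝ) : ℂ))
    with hF
  have hFc : Continuous F := by
    refine hc.comp (Continuous.prodMk ?_ ?_)
    · exact Complex.continuous_ofReal.comp (by fun_prop)
    · exact Complex.continuous_ofReal.comp (by fun_prop)
  have hFe : ∀ s v : ℝ, |v| ≤ s → F (s, v) = ff α β s v := by
    intro s v h
    have h1 := abs_le.1 h
    have n1 : ‖(((s + v) / 2 : ℝ) : ℂ)‖ = (s + v) / 2 := by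
      rw [Complex.norm_real, Real.norm_eq_abs, abs_of_nonneg]
      linarith
    have n2 : ‖(((s - v) / 2 : ℝ) : ℂ)‖ = (s - v) / 2 := by
      rw [Complex.norm_real, Real.norm_eq_abs, abs_of_nonneg]
      linarith
    simp only [hF, wf, n1, n2, ff]
    have e1 : (s + v) / 2 + (s - v) / 2 = s := by ring
    have e2 : ((s + v) / 2) ^ 2 - ((s - v) / 2) ^ 2 = s * v := by ring
    rw [e1, e2]
    ring
  have hK : IsCompact (Icc (0 : ℝ) R ×ˢ Icc (-R) R) := isCompact_Icc.prod isCompact_Icc
  have hmem : ∀ s v : ℝ, |v| ≤ s → s ≤ R → (s, v) ∈ Icc (0 : ℝ) R ×ˢ Icc (-R) R := by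
    intro s v h h2
    have h1 := abs_le.1 h
    exact ⟨⟨(abs_nonneg v).trans h, h2⟩, ⟨by simp only; linarith, by simp only; linarith⟩⟩
  constructor
  · intro e he
    have hu := hK.uniformContinuousOn_of_continuous hFc.continuousOn
    rw [Metric.uniformContinuousOn_iff] at hu
    obtain ⟨η, hη, h⟩ := hu e he
    refine ⟨η / 2, by positivity, fun s v s' v' a1 a2 a3 a4 a5 a6 => ?_⟩
    have := h (s, v) (hmem s v a1 a2) (s', v') (hmem s' v' a3 a4) (by
      rw [Prod.dist_eq]
      refine max_lt ?_ ?_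
      · rw [Real.dist_eq]; simp only; linarith
      · rw [Real.dist_eq]; simp only; linarith)
    rw [hFe s v a1, hFe s' v' a3, Real.dist_eq] at this
    exact this.le
  · obtain ⟨B, hB⟩ := hK.exists_bound_of_continuousOn hFc.continuousOn
    refine ⟨|B|, abs_nonneg B, fun s v h1 h2 => ?_⟩
    have := hB (s, v) (hmem s v h1 h2)
    rw [hFe s v h1, Real.norm_eq_abs] at this
    exact this.trans (le_abs_self B)

theorem main (hC : S_CONT) : S_DISC := by
  intro α β hRC R ε hR hε
  obtain ⟨huc, B, hB0, hB⟩ := unif (hC α β hRC) R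
  -- the slope of `α`
  set L : ℝ := α (2 * R) - α R with hL
  -- choice of M
  obtain ⟨M, hM⟩ := exists_nat_gt (2 * (2 * B + |L|) / ε + 1)
  have hq0 : 0 ≤ 2 * (2 * B + |L|) / ε := by positivity
  have hM1 : (1 : ℝ) ≤ M := by linarith
  have hM0 : (0 : ℝ) < M := by linarith
  have hMb : (2 * B + |L|) / M ≤ ε / 2 := by
    have : 2 * (2 * B + |L|) / ε ≤ M := by linarith
    rw [div_le_iff₀ hε] at this
    rw [div_le_iff₀ hM0]
    linarith
  set e : ℝ := ε / (14 * M) with he
  have he0 : 0 < e := by positivity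
  have heM : M * e = ε / 14 := by rw [he]; field_simp
  obtain ⟨η, hη, hu⟩ := huc e he0
  obtain ⟨n, hn⟩ := exists_nat_gt ((M + 1) * R / η)
  set δ : ℝ := R / (M + n + 1) with hδd
  have hn0 : (0 : ℝ) ≤ n := Nat.cast_nonneg n
  have hδ : 0 < δ := by positivity
  have hδR : (M + n + 1) * δ = R := by rw [hδd]; field_simp
  have hMδ : (M + 1) * δ ≤ η := by
    rw [div_lt_iff₀ hη] at hn
    have : (M + 1) * R ≤ η * (M + n + 1) := by
      have h1 : 0 ≤ ((M : ℝ) + 1) * η := by positivity
      linarith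
    rw [hδd, ← mul_div_assoc, div_le_iff₀ (by positivity)]
    exact this
  -- nodes
  set ρ0 : ℝ := M * δ with hρ0d
  have hρ0 : 0 < ρ0 := by positivity
  set ρ : ℕ → ℝ := fun i => ρ0 + i * δ with hρd
  have hρpos : ∀ i, 0 < ρ i := fun i => by
    have : (0 : ℝ) ≤ i * δ := by positivity
    simp only [hρd]; linarith
  have hρge : ∀ i, ρ0 ≤ ρ i := fun i => by
    have : (0 : ℝ) ≤ i * δ := by positivity
    simp only [hρd]; linarith
  have hρs : ∀ i, ρ (i + 1) = ρ i + δ := fun i => by
    simp only [hρd]; push_cast; ring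
  have hρ00 : ρ 0 = ρ0 := by simp [hρd]
  have hρn : ρ (n + 1) = R := by
    rw [← hδR]
    simp only [hρd, hρ0d]; push_cast; ring
  set a : ℕ → ℝ := fun i => α (ρ i) with had
  set b : ℕ → ℝ := fun i => β (ρ i) * ρ i with hbd
  set σ : ℕ → ℝ := fun i => (a (i + 1) - a i) / δ with hσd
  set θ : ℕ → ℝ := fun i => (b (i + 1) - b i) / δ with hθd
  have hσ : ∀ i, a (i + 1) = a i + σ i * δ := fun i => by
    simp only [hσd]; field_simp; ring
  have hθ : ∀ i, b (i + 1) = b i + θ i * δ := fun i => by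
    simp only [hθd]; field_simp; ring
  set G : ℕ → ℝ := fun i => σ (i + 1) - σ i with hGd
  set H : ℕ → ℝ := fun i => θ (i + 1) - θ i with hHd
  -- convexity
  have hGH : ∀ i, ρ i * |H i| ≤ G i := by
    intro i
    have key : ∀ τ : ℝ, |τ| ≤ ρ i → 0 ≤ G i + τ * H i := by
      intro τ hτ
      have h := slope hRC τ (ρ i) (ρ (i + 1)) (ρ (i + 2)) hτ (by rw [hρs]; linarith)
        (by rw [hρs (i + 1)]; linarith)
      have e1 : ρ (i + 2) - ρ (i + 1) = δ := by rw [hρs (i + 1)]; ring
      have e2 : ρ (i + 1) - ρ i = δ := by rw [hρs i]; ring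
      rw [e1, e2] at h
      have h' := le_of_mul_le_mul_right h hδ
      have f0 : ff α β (ρ i) τ = a i + b i * τ := rfl
      have f1 : ff α β (ρ (i + 1)) τ = a (i + 1) + b (i + 1) * τ := rfl
      have f2 : ff α β (ρ (i + 2)) τ = a (i + 2) + b (i + 2) * τ := rfl
      rw [f0, f1, f2, hσ (i + 1), hθ (i + 1), hσ i, hθ i] at h'
      have h3 : 0 ≤ (G i + τ * H i) * δ := by
        have h4 := sub_nonneg.2 h'
        have h5 : (G i + τ * H i) * δ = a i + σ i * δ + σ (i + 1) * δ +
            (b i + θ i * δ + θ (i + 1) * δ) * τ - (a i + σ i * δ + (b i + θ i * δ) * τ) -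
            (a i + σ i * δ + (b i + θ i * δ) * τ - (a i + b i * τ)) := by
          simp only [hGd, hHd]
          ring
        rw [h5]
        exact h4
      exact nonneg_of_mul_nonneg_left h3 hδ
    have k1 := key (ρ i) (by rw [abs_of_pos (hρpos i)])
    have k2 := key (-ρ i) (by rw [abs_neg, abs_of_pos (hρpos i)])
    rcases abs_cases (H i) with ⟨h, _⟩ | ⟨h, _⟩ <;> rw [h] <;> linarith
  have hG0 : ∀ i, 0 ≤ G i := fun i =>
    le_trans (mul_nonneg (hρpos i).le (abs_nonneg _)) (hGH i)
  set c0 : ℝ := b 0 - ρ0 * θ 0 with hc0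
  have hs0 : |c0| ≤ σ 0 := by
    have key : ∀ τ : ℝ, |τ| = ρ0 → 0 ≤ ρ0 * (σ 0 + τ * θ 0) - τ * b 0 := by
      intro τ hτ
      have h := slope0 hRC τ (ρ 0) (ρ 1) (by rw [hρ00]; exact hτ) (hρpos 0)
        (by rw [hρs 0]; linarith)
      have e2 : ρ 1 - ρ 0 = δ := by rw [hρs 0]; ring
      have f0 : ff α β (ρ 0) τ = a 0 + b 0 * τ := rfl
      have f1 : ff α β (ρ 1) τ = a 1 + b 1 * τ := rfl
      have f2 : α (ρ 0) = a 0 := rfl
      rw [e2, f0, f1, f2, hσ 0, hθ 0, hρ00] at h
      have h3 : 0 ≤ (ρ0 * (σ 0 + τ * θ 0) - τ * b 0) * δ := by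
        have h4 := sub_nonneg.2 h
        have h5 : (ρ0 * (σ 0 + τ * θ 0) - τ * b 0) * δ =
            (a 0 + σ 0 * δ + (b 0 + θ 0 * δ) * τ - (a 0 + b 0 * τ)) * ρ0 -
            (a 0 + b 0 * τ - a 0) * δ := by ring
        rw [h5]
        exact h4
      exact nonneg_of_mul_nonneg_left h3 hδ
    have k1 := key ρ0 (abs_of_pos hρ0)
    have k2 := key (-ρ0) (by rw [abs_neg, abs_of_pos hρ0])
    have k3 : 0 ≤ ρ0 * (σ 0 - c0) := by
      have h5 : ρ0 * (σ 0 - c0) = ρ0 * (σ 0 + ρ0 * θ 0) - ρ0 * b 0 := by rw [hc0]; ring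
      rw [h5]; exact k1
    have k4 : 0 ≤ ρ0 * (σ 0 + c0) := by
      have h5 : ρ0 * (σ 0 + c0) = ρ0 * (σ 0 + -ρ0 * θ 0) - -ρ0 * b 0 := by rw [hc0]; ring
      rw [h5]; exact k2
    have k5 := nonneg_of_mul_nonneg_right k3 hρ0
    have k6 := nonneg_of_mul_nonneg_right k4 hρ0
    exact abs_le.2 ⟨by linarith, by linarith⟩
  have hσ0 : 0 ≤ σ 0 := (abs_nonneg _).trans hs0
  have hσn : R * σ n ≤ L := by
    have h := slope hRC 0 (ρ n) (ρ (n + 1)) (2 * R) (by rw [abs_zero]; exact (hρpos n).le)
      (by rw [hρs]; linarith) (by rw [hρn]; linarith)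
    have e2 : ρ (n + 1) - ρ n = δ := by rw [hρs n]; ring
    have f0 : ff α β (ρ n) 0 = a n := by simp [ff, had]
    have f1 : ff α β (ρ (n + 1)) 0 = a (n + 1) := by simp [ff, had]
    have f2 : ff α β (2 * R) 0 = α (2 * R) := by simp [ff]
    have f3 : a (n + 1) = α R := by simp only [had]; rw [hρn]
    rw [e2, f0, f1, f2, f3] at h
    have h4 : α R - a n = σ n * δ := by rw [← f3, hσ n]; ring
    rw [h4, hρn] at h
    have h5 : (R * σ n) * δ ≤ L * δ := by
      have h6 : (R * σ n) * δ = σ n * δ * (2 * R - R) := by ring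
      rw [h6, hL]
      exact h
    exact le_of_mul_le_mul_right h5 hδ
  -- the data
  set κ : ℝ := 1 + 1 / M with hκ
  have hκρ : ∀ i, ρ (i + 1) ≤ κ * ρ i := by
    intro i
    rw [hρs, hκ, add_mul, one_mul]
    have h1 : 1 / (M : ℝ) * ρ0 = δ := by rw [hρ0d]; field_simp
    have h2 : 1 / (M : ℝ) * ρ0 ≤ 1 / (M : ℝ) * ρ i :=
      mul_le_mul_of_nonneg_left (hρge i) (by positivity)
    linarith
  refine ⟨n, fun i => ρ (i + 1), fun i => 2 * ρ (i + 1) * max (H i) 0,
    fun i => 2 * ρ (i + 1) * max (-H i) 0, fun i => κ * G i - ρ (i + 1) * |H i|,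
    σ 0 - |c0|, 2 * max c0 0, 2 * max (-c0) 0, θ 0, a 0 - σ 0 * ρ0, ?_, by linarith,
    by positivity, by positivity, ?_⟩
  · intro i
    have h1 := hρpos (i + 1)
    refine ⟨h1, by positivity, by positivity, ?_⟩
    have h2 : ρ (i + 1) * |H i| ≤ κ * ρ i * |H i| :=
      mul_le_mul_of_nonneg_right (hκρ i) (abs_nonneg _)
    have h3 : κ * (ρ i * |H i|) ≤ κ * G i := mul_le_mul_of_nonneg_left (hGH i) (by positivity)
    simp only
    linarith
  · intro x y hx hy hxy
    set s : ℝ := x + y with hs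
    set v : ℝ := x - y with hv
    have hvs : |v| ≤ s := abs_le.2 ⟨by linarith, by linarith⟩
    have hs0' : 0 ≤ s := by linarith
    -- the formula for the piece
    set Sg : ℝ := ∑ i ∈ Finset.range n, (σ (i + 1) - σ i) * max (s - (ρ0 + (i + 1) * δ)) 0 with hSg
    set Sh : ℝ := ∑ i ∈ Finset.range n, (θ (i + 1) - θ i) * max (s - (ρ0 + (i + 1) * δ)) 0 with hSh
    have hform : pc n (fun i => ρ (i + 1)) (fun i => 2 * ρ (i + 1) * max (H i) 0)
        (fun i => 2 * ρ (i + 1) * max (-H i) 0) (fun i => κ * G i - ρ (i + 1) * |H i|)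
        (σ 0 - |c0|) (2 * max c0 0) (2 * max (-c0) 0) (θ 0) (a 0 - σ 0 * ρ0) x y =
        (a 0 + σ 0 * (s - ρ0) + Sg) + v * (b 0 + θ 0 * (s - ρ0) + Sh) + 1 / M * Sg := by
      have hsum : ∑ i ∈ Finset.range n, (2 * ρ (i + 1) * max (H i) 0 * Kr (ρ (i + 1)) x y +
          2 * ρ (i + 1) * max (-H i) 0 * Kr (ρ (i + 1)) y x +
          (κ * G i - ρ (i + 1) * |H i|) * max (x + y - ρ (i + 1)) 0) =
          κ * Sg + v * Sh := by
        rw [hSg, hSh, Finset.mul_sum, Finset.mul_sum, ← Finset.sum_add_distrib]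
        refine Finset.sum_congr rfl fun i _ => ?_
        have hr := hρpos (i + 1)
        have hre : ρ0 + ((i : ℝ) + 1) * δ = ρ (i + 1) := by simp only [hρd]; push_cast; ring
        rw [hre]
        unfold Kr
        rw [← hs, add_comm y x, ← hs]
        set m := max (s - ρ (i + 1)) 0
        have hmm : max (H i) 0 - max (-H i) 0 = H i := by
          rcases le_total 0 (H i) with h | h
          · rw [max_eq_left h, max_eq_right (by linarith)]; ring
          · rw [max_eq_right h, max_eq_left (by linarith)]; ring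
        have hpp : max (H i) 0 + max (-H i) 0 = |H i| := by
          rcases le_total 0 (H i) with h | h
          · rw [max_eq_left h, max_eq_right (by linarith), abs_of_nonneg h]; ring
          · rw [max_eq_right h, max_eq_left (by linarith), abs_of_nonpos h]; ring
        have e1 : 2 * ρ (i + 1) * max (H i) 0 * (((x - y) / ρ (i + 1) + 1) * m / 2) +
            2 * ρ (i + 1) * max (-H i) 0 * (((y - x) / ρ (i + 1) + 1) * m / 2) =
            ((max (H i) 0 - max (-H i) 0) * v + ρ (i + 1) * (max (H i) 0 + max (-H i) 0)) * m := by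
          rw [hv]
          field_simp
          ring
        rw [e1, hmm, hpp]
        simp only [hGd, hHd]
        ring
      unfold pc
      rw [hsum]
      have hcc : max c0 0 - max (-c0) 0 = c0 := by
        rcases le_total 0 c0 with h | h
        · rw [max_eq_left h, max_eq_right (by linarith)]; ring
        · rw [max_eq_right h, max_eq_left (by linarith)]; ring
      have hcp : max c0 0 + max (-c0) 0 = |c0| := by
        rcases le_total 0 c0 with h | h
        · rw [max_eq_left h, max_eq_right (by linarith), abs_of_nonneg h]; ring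
        · rw [max_eq_right h, max_eq_left (by linarith), abs_of_nonpos h]; ring
      have hx' : x = (s + v) / 2 := by rw [hs, hv]; ring
      have hy' : y = (s - v) / 2 := by rw [hs, hv]; ring
      have e2 : 2 * max c0 0 * x + 2 * max (-c0) 0 * y =
          (max c0 0 + max (-c0) 0) * s + (max c0 0 - max (-c0) 0) * v := by
        rw [hx', hy']; ring
      have e3 : x ^ 2 - y ^ 2 = s * v := by rw [hs, hv]; ring
      rw [hcc, hcp] at e2
      calc a 0 - σ 0 * ρ0 + (σ 0 - |c0|) * (x + y) + 2 * max c0 0 * x + 2 * max (-c0) 0 * y +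
            θ 0 * (x ^ 2 - y ^ 2) + (κ * Sg + v * Sh)
          = a 0 - σ 0 * ρ0 + (σ 0 - |c0|) * (x + y) + (2 * max c0 0 * x + 2 * max (-c0) 0 * y) +
            θ 0 * (x ^ 2 - y ^ 2) + (κ * Sg + v * Sh) := by ring
        _ = _ := by
          rw [e2, e3, ← hs, hκ, hc0]
          ring
    have hW : α s + β s * (x ^ 2 - y ^ 2) = ff α β s v := by
      have e3 : x ^ 2 - y ^ 2 = s * v := by rw [hs, hv]; ring
      rw [e3, ff]; ring
    rw [hform, hW]
    have hSg0 : 0 ≤ Sg := Finset.sum_nonneg fun i _ => mul_nonneg (hG0 i) (le_max_right _ _)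
    have hSgL : Sg ≤ |L| := by
      have h1 : Sg ≤ ∑ i ∈ Finset.range n, (σ (i + 1) - σ i) * R := by
        refine Finset.sum_le_sum fun i _ => mul_le_mul_of_nonneg_left ?_ (hG0 i)
        refine max_le ?_ hR.le
        have : (0 : ℝ) ≤ ρ0 + (i + 1) * δ := by positivity
        linarith
      rw [← Finset.sum_mul, Finset.sum_range_sub] at h1
      have h2 : (σ n - σ 0) * R ≤ R * σ n := by
        have h3 : (σ n - σ 0) * R = R * σ n - R * σ 0 := by ring
        have h4 : 0 ≤ R * σ 0 := mul_nonneg hR.le hσ0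
        rw [h3]
        exact sub_le_self _ h4
      linarith [le_abs_self L]
    have hcorr : |1 / M * Sg| ≤ |L| / M := by
      rw [abs_of_nonneg (by positivity), div_eq_mul_inv, one_mul, mul_comm,
        div_eq_mul_inv]
      exact mul_le_mul_of_nonneg_right hSgL (by positivity)
    have hbb : ∀ i, i ≤ n + 1 → ρ i * |b i| ≤ 2 * B := by
      intro i hi
      have hρi : ρ i ≤ R := by
        rw [← hρn]
        simp only [hρd]
        have : (i : ℝ) ≤ ((n + 1 : ℕ) : ℝ) := by exact_mod_cast hi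
        have := mul_le_mul_of_nonneg_right this hδ.le
        linarith
      have h1 := hB (ρ i) (ρ i) (by rw [abs_of_pos (hρpos i)]) hρi
      have h2 := hB (ρ i) 0 (by rw [abs_zero]; exact (hρpos i).le) hρi
      have h3 : ρ i * b i = ff α β (ρ i) (ρ i) - ff α β (ρ i) 0 := by
        simp only [ff, hbd]; ring
      calc ρ i * |b i| = |ρ i * b i| := by rw [abs_mul (ρ i) (b i), abs_of_pos (hρpos i)]
        _ ≤ 2 * B := by
          rw [h3]
          refine (abs_sub _ _).trans ?_
          linarith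
    rcases le_total s ρ0 with hcase | hcase
    · -- near the origin
      have z1 : Sg = 0 := by
        refine Finset.sum_eq_zero fun i _ => ?_
        rw [max_eq_right, mul_zero]
        have : (0 : ℝ) ≤ (i + 1) * δ := by positivity
        linarith
      have z2 : Sh = 0 := by
        refine Finset.sum_eq_zero fun i _ => ?_
        rw [max_eq_right, mul_zero]
        have : (0 : ℝ) ≤ (i + 1) * δ := by positivity
        linarith
      rw [z1, z2, mul_zero, add_zero, add_zero, add_zero]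
      have hρ1 : ρ 1 = (M + 1) * δ := by simp only [hρd, hρ0d]; push_cast; ring
      have hρ1η : ρ 1 ≤ η := by rw [hρ1]; exact hMδ
      have hρ0η : ρ0 ≤ η := by
        have := hρge 1
        linarith
      have hρ1R : ρ 1 ≤ R := by
        rw [hρ1, ← hδR]
        exact mul_le_mul_of_nonneg_right (by linarith) hδ.le
      have hρ0R : ρ0 ≤ R := (hρge 1).trans hρ1R
      have u1 : |ff α β s v - ff α β 0 0| ≤ e :=
        hu s v 0 0 hvs hxy (by simp) hR.le
          (by rw [sub_zero, abs_of_nonneg hs0']; linarith)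
          (by rw [sub_zero]; linarith)
      have u2 : ∀ i, i ≤ 1 → |a i - α 0| ≤ e ∧ ρ i * |b i| ≤ e := by
        intro i hi
        have hi' : ρ i ≤ ρ 1 := by
          simp only [hρd]
          have : (i : ℝ) ≤ ((1 : ℕ) : ℝ) := by exact_mod_cast hi
          have := mul_le_mul_of_nonneg_right this hδ.le
          linarith
        have p := hρpos i
        constructor
        · have h1 := hu (ρ i) 0 0 0 (by rw [abs_zero]; exact p.le) (by linarith) (by simp) hR.le
            (by rw [sub_zero, abs_of_pos p]; linarith) (by simp; exact hη.le)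
          have e1 : ff α β (ρ i) 0 = a i := by simp [ff, had]
          have e2 : ff α β 0 0 = α 0 := by simp [ff]
          rwa [e1, e2] at h1
        · have h1 := hu (ρ i) (ρ i) (ρ i) 0 (by rw [abs_of_pos p]) (by linarith)
            (by rw [abs_zero]; exact p.le) (by linarith) (by simp; exact hη.le)
            (by rw [sub_zero, abs_of_pos p]; linarith)
          have h3 : ff α β (ρ i) (ρ i) - ff α β (ρ i) 0 = ρ i * b i := by
            simp only [ff, hbd]; ring
          rw [h3, abs_mul, abs_of_pos p] at h1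
          exact h1
      have a0 := (u2 0 (by norm_num)).1
      have b0 := (u2 0 (by norm_num)).2
      have a1 := (u2 1 le_rfl).1
      have b1 := (u2 1 le_rfl).2
      rw [hρ00] at b0
      have e2 : ff α β 0 0 = α 0 := by simp [ff]
      rw [e2] at u1
      -- σ 0 ρ0
      have q1 : σ 0 * ρ0 ≤ 2 * (M * e) := by
        have h1 : σ 0 * ρ0 = M * (a 1 - a 0) := by
          have := hσ 0
          rw [hρ0d]
          have h2 : a 1 - a 0 = σ 0 * δ := by
            have : a (0 + 1) = a 1 := rfl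
            linarith
          rw [h2]; ring
        rw [h1]
        have h2 : a 1 - a 0 ≤ 2 * e := by
          have := (abs_le.1 a0).1
          have := (abs_le.1 a1).2
          linarith
        calc M * (a 1 - a 0) ≤ M * (2 * e) := mul_le_mul_of_nonneg_left h2 hM0.le
          _ = _ := by ring
      have q2 : ρ0 * (ρ0 * |θ 0|) ≤ 2 * (M * e) := by
        have h2 : |b 1 - b 0| = |θ 0| * δ := by
          have h3 : b 1 - b 0 = θ 0 * δ := by
            have := hθ 0
            have h4 : b (0 + 1) = b 1 := rfl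
            linarith
          rw [h3, abs_mul, abs_of_pos hδ]
        have h3 : ρ0 * |b 1 - b 0| ≤ 2 * e := by
          have h4 : |b 1 - b 0| ≤ |b 1| + |b 0| := abs_sub _ _
          have h5 : ρ0 * |b 1| ≤ ρ 1 * |b 1| :=
            mul_le_mul_of_nonneg_right (hρge 1) (abs_nonneg _)
          calc ρ0 * |b 1 - b 0| ≤ ρ0 * (|b 1| + |b 0|) := mul_le_mul_of_nonneg_left h4 hρ0.le
            _ = ρ0 * |b 1| + ρ0 * |b 0| := by ring
            _ ≤ 2 * e := by linarith
        rw [h2] at h3
        calc ρ0 * (ρ0 * |θ 0|) = M * (ρ0 * (|θ 0| * δ)) := by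
              nth_rewrite 2 [hρ0d]; ring
          _ ≤ M * (2 * e) := mul_le_mul_of_nonneg_left h3 hM0.le
          _ = _ := by ring
      have r1 : |σ 0 * (s - ρ0)| ≤ σ 0 * ρ0 := by
        rw [abs_mul, abs_of_nonneg hσ0]
        refine mul_le_mul_of_nonneg_left ?_ hσ0
        rw [abs_le]; constructor <;> linarith
      have r2 : |v * (b 0 + θ 0 * (s - ρ0))| ≤ ρ0 * |b 0| + ρ0 * (ρ0 * |θ 0|) := by
        rw [abs_mul]
        have h1 : |b 0 + θ 0 * (s - ρ0)| ≤ |b 0| + ρ0 * |θ 0| := by
          refine (abs_add_le _ _).trans ?_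
          rw [abs_mul (θ 0)]
          have : |s - ρ0| ≤ ρ0 := by rw [abs_le]; constructor <;> linarith
          have := mul_le_mul_of_nonneg_left this (abs_nonneg (θ 0))
          linarith
        calc |v| * |b 0 + θ 0 * (s - ρ0)| ≤ ρ0 * (|b 0| + ρ0 * |θ 0|) :=
              mul_le_mul (hvs.trans hcase) h1 (abs_nonneg _) hρ0.le
          _ = _ := by ring
      have hMe : e ≤ M * e := le_mul_of_one_le_left he0.le hM1
      have r3 : ff α β s v - (a 0 + σ 0 * (s - ρ0) + v * (b 0 + θ 0 * (s - ρ0))) =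
          (ff α β s v - α 0) - (a 0 - α 0) - σ 0 * (s - ρ0) - v * (b 0 + θ 0 * (s - ρ0)) := by
        ring
      rw [r3, abs_le]
      have t1 := abs_le.1 u1
      have t2 := abs_le.1 a0
      have t3 := abs_le.1 r1
      have t4 := abs_le.1 r2
      constructor <;> linarith
    · -- away from the origin
      obtain ⟨j, hj, hj1, hj2⟩ := exj δ ρ0 s n hcase (by
        have : ρ0 + (n + 1) * δ = R := by rw [← hρn]; simp only [hρd]; push_cast; ring
        rw [this]; exact hxy)
      have g1 := interp δ ρ0 hδ a σ hσ s n j hj hj1 hj2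
      have g2 := interp δ ρ0 hδ b θ hθ s n j hj hj1 hj2
      rw [← hSg] at g1
      rw [← hSh] at g2
      rw [g1, g2]
      have hρj : ρ0 + j * δ = ρ j := rfl
      rw [hρj] at hj1 ⊢
      have hρj1 : ρ0 + ((j : ℝ) + 1) * δ = ρ (j + 1) := by simp only [hρd]; push_cast; ring
      rw [hρj1] at hj2
      have pj := hρpos j
      have pj1 := hρpos (j + 1)
      have hjs := hρs j
      have hρjR : ρ (j + 1) ≤ R := by
        rw [← hρn]
        simp only [hρd]
        have : (((j + 1 : ℕ)) : ℝ) ≤ ((n + 1 : ℕ) : ℝ) := by exact_mod_cast (by omega : j + 1 ≤ n + 1)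
        have := mul_le_mul_of_nonneg_right this hδ.le
        linarith
      have hδη : δ ≤ η := (le_mul_of_one_le_left hδ.le (by linarith)).trans hMδ
      -- the clamped value
      set v' : ℝ := max (-ρ j) (min v (ρ j)) with hv'
      have hv'1 : |v'| ≤ ρ j := by
        rw [abs_le, hv']
        exact ⟨le_max_left _ _, max_le (by linarith) (min_le_right _ _)⟩
      have hv'2 : |v - v'| ≤ δ := by
        have h1 := abs_le.1 hvs
        rw [hv', abs_le]
        rcases le_total v (ρ j) with h | h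
        · rw [min_eq_left h]
          rcases le_total (-ρ j) v with h' | h'
          · rw [max_eq_right h']; constructor <;> linarith
          · rw [max_eq_left h']; constructor <;> linarith
        · rw [min_eq_right h, max_eq_right (by linarith)]; constructor <;> linarith
      set lam : ℝ := (s - ρ j) / δ with hlam
      have hl0 : 0 ≤ lam := div_nonneg (by linarith) hδ.le
      have hl1 : lam ≤ 1 := by rw [hlam, div_le_one hδ]; linarith
      have hld : s - ρ j = lam * δ := by rw [hlam]; field_simp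
      have ea : a j + σ j * (s - ρ j) = (1 - lam) * a j + lam * a (j + 1) := by
        rw [hld, hσ j]; ring
      have eb : b j + θ j * (s - ρ j) = (1 - lam) * b j + lam * b (j + 1) := by
        rw [hld, hθ j]; ring
      rw [ea, eb]
      have w1 : |ff α β s v - ff α β (ρ j) v'| ≤ e :=
        hu s v (ρ j) v' hvs hxy hv'1 (by linarith) (by rw [abs_le]; constructor <;> linarith)
          (hv'2.trans hδη)
      have w2 : |ff α β s v - ff α β (ρ (j + 1)) v'| ≤ e :=
        hu s v (ρ (j + 1)) v' hvs hxy (hv'1.trans (by linarith)) hρjR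
          (by rw [abs_le]; constructor <;> linarith) (hv'2.trans hδη)
      have f0 : ff α β (ρ j) v' = a j + b j * v' := rfl
      have f1 : ff α β (ρ (j + 1)) v' = a (j + 1) + b (j + 1) * v' := rfl
      rw [f0] at w1
      rw [f1] at w2
      -- bound for b
      have hbδ : ∀ i, i ≤ n + 1 → δ * |b i| ≤ 2 * B / M := by
        intro i hi
        rw [le_div_iff₀ hM0]
        calc δ * |b i| * M = ρ0 * |b i| := by rw [hρ0d]; ring
          _ ≤ ρ i * |b i| := mul_le_mul_of_nonneg_right (hρge i) (abs_nonneg _)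
          _ ≤ 2 * B := hbb i hi
      have hbx : |(v - v') * ((1 - lam) * b j + lam * b (j + 1))| ≤ 2 * B / M := by
        rw [abs_mul]
        have h1 : |(1 - lam) * b j + lam * b (j + 1)| ≤ (1 - lam) * |b j| + lam * |b (j + 1)| := by
          refine (abs_add_le _ _).trans ?_
          rw [abs_mul (1 - lam), abs_mul lam, abs_of_nonneg hl0,
            abs_of_nonneg (by linarith : 0 ≤ 1 - lam)]
        have h2 := hbδ j (by omega)
        have h3 := hbδ (j + 1) (by omega)
        calc |v - v'| * |(1 - lam) * b j + lam * b (j + 1)|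
            ≤ δ * ((1 - lam) * |b j| + lam * |b (j + 1)|) :=
              mul_le_mul hv'2 h1 (abs_nonneg _) hδ.le
          _ = (1 - lam) * (δ * |b j|) + lam * (δ * |b (j + 1)|) := by ring
          _ ≤ (1 - lam) * (2 * B / M) + lam * (2 * B / M) :=
              add_le_add (mul_le_mul_of_nonneg_left h2 (by linarith))
                (mul_le_mul_of_nonneg_left h3 hl0)
          _ = 2 * B / M := by ring
      have hmain : ff α β s v - ((1 - lam) * a j + lam * a (j + 1) +
          v * ((1 - lam) * b j + lam * b (j + 1)) + 1 / M * Sg) =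
          (1 - lam) * (ff α β s v - (a j + b j * v')) +
          lam * (ff α β s v - (a (j + 1) + b (j + 1) * v')) -
          (v - v') * ((1 - lam) * b j + lam * b (j + 1)) - 1 / M * Sg := by ring
      rw [hmain]
      have x1 : |(1 - lam) * (ff α β s v - (a j + b j * v'))| ≤ (1 - lam) * e := by
        rw [abs_mul, abs_of_nonneg (by linarith : 0 ≤ 1 - lam)]
        exact mul_le_mul_of_nonneg_left w1 (by linarith)
      have x2 : |lam * (ff α β s v - (a (j + 1) + b (j + 1) * v'))| ≤ lam * e := by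
        rw [abs_mul, abs_of_nonneg hl0]
        exact mul_le_mul_of_nonneg_left w2 hl0
      have t1 := abs_le.1 x1
      have t2 := abs_le.1 x2
      have t3 := abs_le.1 hbx
      have t4 := abs_le.1 hcorr
      have t5 : 2 * B / M + |L| / M ≤ ε / 2 := by rw [← add_div]; exact hMb
      have hMe : e ≤ M * e := le_mul_of_one_le_left he0.le hM1
      rw [abs_le]
      constructor <;> linarith

end Pool.Agent.W407.MQ.Disc
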